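import Pool.Agent.W734.TWB.Stms

/-!
# TWB-BLOCK: the energy of few particles in a small box
-/

set_option autoImplicit false

noncomputable section

namespace Pool.Agent.W395.TWB

open MeasureTheory Set Filter Metric
open Pool.Agent.W734.TWB

variable {m : ℕ}

/-- the configuration with all particles at `a` -/
def cc (m : ℕ) (a : E3) : Cfg m := fun _ => a

lemma cc_apply (a : E3) (l : ℝ) (y : Cfg m) (i : Fin m) (k : Fin 3) :
    (cc m a + l • y) i k = a k + l * y i k := by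
  simp [cc]

lemma mem_box_scale (a : E3) {l : ℝ} (hl : 0 < l) (y : Cfg m) :
    cc m a + l • y ∈ box a l m ↔ y ∈ box 0 1 m := by
  unfold box
  refine forall_congr' fun i => forall_congr' fun k => ?_
  rw [cc_apply]
  simp only [mem_Ico]
  have h0 : (0 : E3) k = 0 := rfl
  rw [h0, zero_add]
  constructor
  · rintro ⟨h1, h2⟩
    refine ⟨?_, ?_⟩
    · by_contra h
      push Not at h
      have := mul_neg_of_pos_of_neg hl h
      linarith
    · by_contra h
      push Not at h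
      have : l * 1 ≤ l * y i k := mul_le_mul_of_nonneg_left h hl.le
      linarith
  · rintro ⟨h1, h2⟩
    refine ⟨?_, ?_⟩
    · have := mul_nonneg hl.le h1
      linarith
    · have : l * y i k < l * 1 := mul_lt_mul_of_pos_left h2 hl
      linarith

lemma meas_box (a : E3) (l : ℝ) : MeasurableSet (box a l m) := by
  have h : box a l m = ⋂ i : Fin m, ⋂ k : Fin 3, (fun x : Cfg m => x i k) ⁻¹' Set.Ico (a k) (a k + l) := by
    ext x
    simp [box]
  rw [h]
  refine MeasurableSet.iInter fun i => MeasurableSet.iInter fun k => ?_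
  have hc : Continuous (fun x : Cfg m => x i k) := by fun_prop
  exact hc.measurable measurableSet_Ico

lemma scale_int (m : ℕ) (a : E3) {l : ℝ} (hl : 0 < l) : ∃ D : ℝ, 0 < D ∧ ∀ f : Cfg m → ℝ,
    ∫ x in box a l m, f x = D * ∫ y in box 0 1 m, f (cc m a + l • y) := by
  have hpos : 0 < l ^ Module.finrank ℝ (Cfg m) := by positivity
  refine ⟨l ^ Module.finrank ℝ (Cfg m), hpos, fun f => ?_⟩
  have h1 : ∫ y in box 0 1 m, f (cc m a + l • y) =
      ∫ y : Cfg m, (fun z => (box a l m).indicator f (cc m a + z)) (l • y) := by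
    rw [← integral_indicator (meas_box 0 1)]
    refine integral_congr_ae (Eventually.of_forall fun y => ?_)
    show (box 0 1 m).indicator (fun y => f (cc m a + l • y)) y =
      (box a l m).indicator f (cc m a + l • y)
    by_cases hy : y ∈ box 0 1 m
    · rw [indicator_of_mem hy, indicator_of_mem ((mem_box_scale a hl y).2 hy)]
    · rw [indicator_of_notMem hy, indicator_of_notMem (fun h => hy ((mem_box_scale a hl y).1 h))]
  have h2 := Measure.integral_comp_smul (volume : Measure (Cfg m))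
    (fun z => (box a l m).indicator f (cc m a + z)) l
  have h3 : ∫ z : Cfg m, (box a l m).indicator f (cc m a + z) = ∫ z in box a l m, f z := by
    rw [integral_add_left_eq_self (fun z => (box a l m).indicator f z),
      integral_indicator (meas_box a l)]
  rw [h1, h2, h3, smul_eq_mul, abs_of_pos (inv_pos.2 hpos), ← mul_assoc,
    mul_inv_cancel₀ hpos.ne', one_mul]

/-- derivative of the rescaled function -/
lemma fderiv_scale {F : Cfg m → ℂ} (hF : Differentiable ℝ F) (c : Cfg m) (l : ℝ) (y v : Cfg m) :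
    fderiv ℝ (fun y => F (c + l • y)) y v = (l : ℂ) * fderiv ℝ F (c + l • y) v := by
  have h1 : HasFDerivAt (fun y : Cfg m => c + l • y) (l • ContinuousLinearMap.id ℝ (Cfg m)) y :=
    ((hasFDerivAt_id y).const_smul l).const_add c
  have h2 : HasFDerivAt (fun y : Cfg m => F (c + l • y))
      ((fderiv ℝ F (c + l • y)).comp (l • ContinuousLinearMap.id ℝ (Cfg m))) y :=
    (hF (c + l • y)).hasFDerivAt.comp y h1
  rw [h2.fderiv]
  simp

lemma kin_scale {F : Cfg m → ℂ} (hF : Differentiable ℝ F) (c : Cfg m) (l : ℝ) (y : Cfg m) :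
    kin (fun y => F (c + l • y)) y = l ^ 2 * kin F (c + l • y) := by
  unfold kin gsq
  rw [Finset.mul_sum]
  refine Finset.sum_congr rfl fun i _ => ?_
  rw [Finset.mul_sum]
  refine Finset.sum_congr rfl fun k _ => ?_
  rw [fderiv_scale hF, norm_mul, mul_pow, Complex.norm_real, Real.norm_eq_abs, sq_abs]

lemma pairS_scale (W : E3 → ℝ) (N : ℕ) (a : E3) (l : ℝ) (y : Cfg m) :
    l ^ 2 * pairS (Wn N W) (cc m a + l • y) =
      pairS (fun z => (N * l) ^ 2 * W ((N * l) • z)) y := by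
  unfold pairS
  rw [Finset.mul_sum]
  refine Finset.sum_congr rfl fun i _ => ?_
  rw [Finset.mul_sum]
  refine Finset.sum_congr rfl fun j _ => ?_
  have e : (cc m a + l • y) i - (cc m a + l • y) j = l • (y i - y j) := by
    simp [cc, smul_sub]
  rw [e]
  unfold Wn
  rw [smul_smul]
  ring

lemma tripS_scale (V : E3 × E3 → ℝ) (N : ℕ) (a : E3) (l : ℝ) (y : Cfg m) :
    l ^ 2 * tripS (Vn N V) (cc m a + l • y) =
      tripS (fun p => (Real.sqrt N * l) ^ 2 * V ((Real.sqrt N * l) • p)) y := by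
  unfold tripS
  rw [Finset.mul_sum]
  refine Finset.sum_congr rfl fun i _ => ?_
  rw [Finset.mul_sum]
  refine Finset.sum_congr rfl fun j _ => ?_
  rw [Finset.mul_sum]
  refine Finset.sum_congr rfl fun k _ => ?_
  have e : ∀ j, (cc m a + l • y) i - (cc m a + l • y) j = l • (y i - y j) := by
    intro j
    simp [cc, smul_sub]
  rw [e, e]
  unfold Vn
  have e2 : Real.sqrt N • (l • (y i - y j), l • (y i - y k)) =
      (Real.sqrt N * l) • (y i - y j, y i - y k) := by
    rw [Prod.smul_mk, Prod.smul_mk, smul_smul, smul_smul]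
  rw [e2, mul_pow, Real.sq_sqrt (Nat.cast_nonneg N)]
  ring

/-- the potential energy -/
def PP (W : E3 → ℝ) (V : E3 × E3 → ℝ) (N : ℕ) (x : Cfg m) : ℝ :=
  pairS (Wn N W) x + tripS (Vn N V) x

lemma ell_pos {n0 : ℝ} (hn0 : 0 < n0) {N : ℕ} (hN : 1 ≤ N) : 0 < ell n0 N := by
  unfold ell
  have : (0 : ℝ) < N := by exact_mod_cast hN
  positivity

lemma ell_cube {n0 : ℝ} (hn0 : 0 < n0) {N : ℕ} (hN : 1 ≤ N) : ell n0 N ^ 3 = n0 / N := by
  unfold ell
  have : (0 : ℝ) < N := by exact_mod_cast hN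
  rw [← Real.rpow_natCast, ← Real.rpow_mul (by positivity)]
  norm_num

/-- the scaled inequality -/
lemma scaled (W : E3 → ℝ) (V : E3 × E3 → ℝ) {n0 η' s0 : ℝ} (hn0 : 0 < n0) (m : ℕ)
    (hF : ∀ s r : ℝ, s0 ≤ s → s0 ≤ r → ∀ F : Cfg m → ℂ, ContDiff ℝ 1 F →
      (1 - η') * ((m.choose 2 : ℝ) * b1 W / s + (m.choose 3 : ℝ) * b2 V / r ^ 4)
        * (∫ x in box 0 1 m, ‖F x‖ ^ 2) ≤
      ∫ x in box 0 1 m, (kin F x + (pairS (fun z => s ^ 2 * W (s • z)) x
        + tripS (fun p => r ^ 2 * V (r • p)) x) * ‖F x‖ ^ 2))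
    {N : ℕ} (hN : 1 ≤ N) (hs : s0 ≤ N * ell n0 N) (hr : s0 ≤ Real.sqrt N * ell n0 N)
    (a : E3) (F : Cfg m → ℂ) (hFc : ContDiff ℝ 1 F) :
    (1 - η') * hh (b1 W) (b2 V) n0 m * (∫ x in box a (ell n0 N) m, ‖F x‖ ^ 2) ≤
      ∫ x in box a (ell n0 N) m, (kin F x + PP W V N x * ‖F x‖ ^ 2) := by
  set l := ell n0 N with hl
  have hl0 : 0 < l := ell_pos hn0 hN
  have hl3 : l ^ 3 = n0 / N := ell_cube hn0 hN
  have hNR : (0 : ℝ) < N := by exact_mod_cast hN
  obtain ⟨D, hD, hint⟩ := scale_int m a hl0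
  rw [hint, hint]
  set G : Cfg m → ℂ := fun y => F (cc m a + l • y) with hG
  have hGc : ContDiff ℝ 1 G := by
    refine hFc.comp ?_
    fun_prop
  have h1 := hF (N * l) (Real.sqrt N * l) hs hr G hGc
  have hdiff : Differentiable ℝ F := hFc.differentiable one_ne_zero
  have h2 : ∀ y : Cfg m, kin G y + (pairS (fun z => (N * l) ^ 2 * W ((N * l) • z)) y
      + tripS (fun p => (Real.sqrt N * l) ^ 2 * V ((Real.sqrt N * l) • p)) y) * ‖G y‖ ^ 2 =
      l ^ 2 * (kin F (cc m a + l • y) + PP W V N (cc m a + l • y) *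
        ‖F (cc m a + l • y)‖ ^ 2) := by
    intro y
    rw [← pairS_scale W N a l y, ← tripS_scale V N a l y, hG, kin_scale hdiff]
    unfold PP
    ring
  simp only [h2] at h1
  rw [integral_const_mul] at h1
  have hl2 : 0 < l ^ 2 := by positivity
  have e1 : (m.choose 2 : ℝ) * b1 W / (N * l) + (m.choose 3 : ℝ) * b2 V / (Real.sqrt N * l) ^ 4 =
      l ^ 2 * hh (b1 W) (b2 V) n0 m := by
    unfold hh
    have hs4 : Real.sqrt N ^ 4 = (N : ℝ) ^ 2 := by
      have : Real.sqrt N ^ 4 = (Real.sqrt N ^ 2) ^ 2 := by ring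
      rw [this, Real.sq_sqrt hNR.le]
    have hn : n0 = N * l ^ 3 := by
      rw [hl3]; field_simp
    rw [mul_pow, hs4, hn]
    field_simp
  rw [e1] at h1
  have h3 : (1 - η') * hh (b1 W) (b2 V) n0 m * (∫ y in box 0 1 m, ‖G y‖ ^ 2) ≤
      ∫ y in box 0 1 m, (kin F (cc m a + l • y) + PP W V N (cc m a + l • y) *
        ‖F (cc m a + l • y)‖ ^ 2) := by
    refine le_of_mul_le_mul_left ?_ hl2
    calc l ^ 2 * ((1 - η') * hh (b1 W) (b2 V) n0 m * (∫ y in box 0 1 m, ‖G y‖ ^ 2))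
        = (1 - η') * (l ^ 2 * hh (b1 W) (b2 V) n0 m) * (∫ y in box 0 1 m, ‖G y‖ ^ 2) := by ring
      _ ≤ _ := h1
  calc (1 - η') * hh (b1 W) (b2 V) n0 m * (D * ∫ y in box 0 1 m, ‖F (cc m a + l • y)‖ ^ 2)
      = D * ((1 - η') * hh (b1 W) (b2 V) n0 m * (∫ y in box 0 1 m, ‖G y‖ ^ 2)) := by
        rw [hG]; ring
    _ ≤ _ := mul_le_mul_of_nonneg_left h3 hD.le

/-! ### integrability -/

lemma norm_sub_le_of_box {a : E3} {l : ℝ} (hl : 0 < l) {x : Cfg m} (hx : x ∈ box a l m)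
    (i : Fin m) : ‖x i - a‖ ≤ 2 * l := by
  rw [EuclideanSpace.norm_eq, Real.sqrt_le_left (by positivity), Fin.sum_univ_three]
  have h : ∀ k, ‖(x i - a) k‖ ^ 2 ≤ l ^ 2 := by
    intro k
    obtain ⟨h1, h2⟩ := hx i k
    have e : (x i - a) k = x i k - a k := rfl
    rw [e, Real.norm_eq_abs, sq_abs]
    have h3 : 0 ≤ x i k - a k := by linarith
    have h4 : x i k - a k ≤ l := by linarith
    exact pow_le_pow_left₀ h3 h4 2
  have h0 := h 0
  have h1 := h 1
  have h2 := h 2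
  nlinarith

lemma box_sub (a : E3) {l : ℝ} (hl : 0 < l) : box a l m ⊆ closedBall (cc m a) (2 * l) := by
  intro x hx
  rw [mem_closedBall, dist_pi_le_iff (by positivity)]
  intro i
  rw [dist_eq_norm]
  exact norm_sub_le_of_box hl hx i

lemma intOn_cont {h : Cfg m → ℝ} (hc : Continuous h) (a : E3) {l : ℝ} (hl : 0 < l) :
    IntegrableOn h (box a l m) :=
  (hc.continuousOn.integrableOn_compact (isCompact_closedBall (cc m a) (2 * l))).mono_set
    (box_sub a hl)

lemma intOn_mul {h P : Cfg m → ℝ} (hc : Continuous h) (hP : Measurable P)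
    (hb : ∃ B : ℝ, ∀ x, |P x| ≤ B) (a : E3) {l : ℝ} (hl : 0 < l) :
    IntegrableOn (fun x => P x * h x) (box a l m) := by
  obtain ⟨B, hB⟩ := hb
  have h1 : IntegrableOn (fun x => B * |h x|) (box a l m) :=
    intOn_cont (continuous_const.mul hc.abs) a hl
  refine Integrable.mono' h1 (hP.mul hc.measurable).aestronglyMeasurable ?_
  refine Eventually.of_forall fun x => ?_
  rw [Real.norm_eq_abs, abs_mul]
  exact mul_le_mul_of_nonneg_right (hB x) (abs_nonneg _)

lemma cont_kin {F : Cfg m → ℂ} (hF : ContDiff ℝ 1 F) : Continuous (kin F) := by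
  unfold kin gsq
  refine continuous_finsetSum _ fun i _ => continuous_finsetSum _ fun k _ => ?_
  exact ((hF.continuous_fderiv one_ne_zero).clm_apply continuous_const).norm.pow 2

lemma kin_nonneg (F : Cfg m → ℂ) (x : Cfg m) : 0 ≤ kin F x := by
  unfold kin gsq
  exact Finset.sum_nonneg fun i _ => Finset.sum_nonneg fun k _ => by positivity

lemma cont_wt {φ : E3 → ℝ} (hφ : Continuous φ) : Continuous (wt φ : Cfg m → ℝ) := by
  unfold wt
  exact continuous_finsetProd _ fun i _ => (hφ.comp (continuous_apply i)).pow 2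

lemma wt_nonneg (φ : E3 → ℝ) (x : Cfg m) : 0 ≤ wt φ x := by
  unfold wt
  exact Finset.prod_nonneg fun i _ => sq_nonneg _

lemma PP_nonneg {W : E3 → ℝ} {V : E3 × E3 → ℝ} (hW : AdmW W) (hV : AdmV V) (N : ℕ) (x : Cfg m) :
    0 ≤ PP W V N x := by
  unfold PP pairS tripS Wn Vn
  refine add_nonneg ?_ ?_
  · exact Finset.sum_nonneg fun i _ => Finset.sum_nonneg fun j _ =>
      mul_nonneg (by positivity) (hW.nonneg _)
  · exact Finset.sum_nonneg fun i _ => Finset.sum_nonneg fun j _ =>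
      Finset.sum_nonneg fun k _ => mul_nonneg (by positivity) (hV.nonneg _)

lemma PP_meas {W : E3 → ℝ} {V : E3 × E3 → ℝ} (hW : AdmW W) (hV : AdmV V) (N : ℕ) :
    Measurable (PP W V N : Cfg m → ℝ) := by
  unfold PP pairS tripS Wn Vn
  refine Measurable.add ?_ ?_
  · refine Finset.measurable_fun_sum _ fun i _ => Finset.measurable_fun_sum _ fun j _ => ?_
    refine Measurable.const_mul (hW.meas.comp ?_) _
    have : Continuous fun x : Cfg m => (N : ℝ) • (x i - x j) := by fun_prop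
    exact this.measurable
  · refine Finset.measurable_fun_sum _ fun i _ => Finset.measurable_fun_sum _ fun j _ =>
      Finset.measurable_fun_sum _ fun k _ => ?_
    refine Measurable.const_mul (hV.meas.comp ?_) _
    have : Continuous fun x : Cfg m => Real.sqrt N • (x i - x j, x i - x k) := by fun_prop
    exact this.measurable

lemma PP_bdd {W : E3 → ℝ} {V : E3 × E3 → ℝ} (hW : AdmW W) (hV : AdmV V) (N : ℕ) :
    ∃ B : ℝ, ∀ x : Cfg m, |PP W V N x| ≤ B := by
  obtain ⟨Mw, hMw⟩ := hW.bdd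
  obtain ⟨Mv, hMv⟩ := hV.bdd
  refine ⟨(∑ i : Fin m, ∑ j ∈ Finset.Ioi i, (N : ℝ) ^ 2 * Mw) +
    ∑ i : Fin m, ∑ j ∈ Finset.Ioi i, ∑ k ∈ Finset.Ioi j, (N : ℝ) * Mv, fun x => ?_⟩
  rw [abs_of_nonneg (PP_nonneg hW hV N x)]
  unfold PP pairS tripS Wn Vn
  refine add_le_add ?_ ?_
  · exact Finset.sum_le_sum fun i _ => Finset.sum_le_sum fun j _ =>
      mul_le_mul_of_nonneg_left (hMw _) (by positivity)
  · exact Finset.sum_le_sum fun i _ => Finset.sum_le_sum fun j _ =>
      Finset.sum_le_sum fun k _ => mul_le_mul_of_nonneg_left (hMv _) (by positivity)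

lemma b1_nonneg {W : E3 → ℝ} (hW : AdmW W) : 0 ≤ b1 W := by
  refine Real.sInf_nonneg ?_
  rintro B ⟨φ, -, -, rfl⟩
  refine integral_nonneg fun y => ?_
  have h1 : 0 ≤ g3 φ y := by
    unfold g3
    exact Finset.sum_nonneg fun k _ => by positivity
  have h2 := hW.nonneg y
  positivity

lemma b2_nonneg {V : E3 × E3 → ℝ} (hV : AdmV V) : 0 ≤ b2 V := by
  refine Real.sInf_nonneg ?_
  rintro B ⟨φ, -, -, rfl⟩
  refine integral_nonneg fun y => ?_
  have h1 : 0 ≤ g6 φ y := by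
    unfold g6
    exact Finset.sum_nonneg fun k _ => by positivity
  have h2 := hV.nonneg y
  positivity

/-- comparison of the weight with a constant -/
lemma weight_cmp {φ : E3 → ℝ} (hφ : Continuous φ) (hφ0 : ∀ x, 0 < φ x) (M κ : ℝ) (hκ : 0 < κ) :
    ∃ δ : ℝ, 0 < δ ∧ ∀ l : ℝ, 0 < l → l ≤ δ → ∀ a : E3, ‖a‖ ≤ M → ∀ z : E3, ‖z - a‖ ≤ 2 * l →
      φ z ^ 2 ≤ Real.exp (2 * κ) * φ a ^ 2 ∧ φ a ^ 2 ≤ Real.exp (2 * κ) * φ z ^ 2 := by
  have hc : ContinuousOn (fun z => Real.log (φ z)) (closedBall (0 : E3) (|M| + 2)) :=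
    (hφ.log fun x => (hφ0 x).ne').continuousOn
  have hu := (isCompact_closedBall (0 : E3) (|M| + 2)).uniformContinuousOn_of_continuous hc
  obtain ⟨δ', hδ', h⟩ := Metric.uniformContinuousOn_iff.1 hu κ hκ
  refine ⟨min (δ' / 4) 1, lt_min (by positivity) one_pos, ?_⟩
  intro l hl0 hl a ha z hz
  have hl1 : l ≤ δ' / 4 := hl.trans (min_le_left _ _)
  have hl2 : l ≤ 1 := hl.trans (min_le_right _ _)
  have haM : ‖a‖ ≤ |M| := ha.trans (le_abs_self M)
  have haK : a ∈ closedBall (0 : E3) (|M| + 2) := by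
    rw [mem_closedBall_zero_iff]; linarith
  have hzK : z ∈ closedBall (0 : E3) (|M| + 2) := by
    rw [mem_closedBall_zero_iff]
    have : ‖z‖ ≤ ‖z - a‖ + ‖a‖ := by
      have := norm_add_le (z - a) a
      rwa [sub_add_cancel] at this
    linarith
  have hd : dist z a < δ' := by
    rw [dist_eq_norm]; linarith
  have h1 := h z hzK a haK hd
  rw [Real.dist_eq, abs_lt] at h1
  have key : ∀ s t : ℝ, 0 < s → 0 < t → Real.log s - Real.log t ≤ κ →
      s ^ 2 ≤ Real.exp (2 * κ) * t ^ 2 := by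
    intro s t hs ht hst
    have h2 : Real.log s ≤ κ + Real.log t := by linarith
    have h3 : s ≤ Real.exp κ * t := by
      have := Real.exp_le_exp.2 h2
      rwa [Real.exp_log hs, Real.exp_add, Real.exp_log ht] at this
    have h4 := pow_le_pow_left₀ hs.le h3 2
    rw [mul_pow, ← Real.exp_nat_mul] at h4
    push_cast at h4
    exact h4
  exact ⟨key _ _ (hφ0 z) (hφ0 a) (by linarith [h1.2]), key _ _ (hφ0 a) (hφ0 z) (by linarith [h1.1])⟩

theorem block (hFNL : S_FNL) : S_BLOCK := by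
  intro W V hW hV φ hφ hφ0 M p n0 η hn0 hη
  have hβ := b1_nonneg hW
  have hγ := b2_nonneg hV
  have hhh : ∀ m, 0 ≤ hh (b1 W) (b2 V) n0 m := by
    intro m
    unfold hh
    positivity
  -- the right hand side is nonnegative
  have hR : ∀ (N : ℕ) (a : E3) (m : ℕ) (F : Cfg m → ℂ), 0 ≤ ∫ x in box a (ell n0 N) m,
      wt φ x * (kin F x + (pairS (Wn N W) x + tripS (Vn N V) x) * ‖F x‖ ^ 2) := by
    intro N a m F
    refine integral_nonneg fun x => ?_
    have h1 := kin_nonneg F x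
    have h2 : 0 ≤ pairS (Wn N W) x + tripS (Vn N V) x := PP_nonneg hW hV N x
    have h3 := wt_nonneg φ x
    positivity
  rcases le_or_gt 1 η with h1η | h1η
  · refine Eventually.of_forall fun N a _ m _ F _ => ?_
    refine le_trans ?_ (hR N a m F)
    refine mul_nonpos_of_nonpos_of_nonneg ?_ ?_
    · exact mul_nonpos_of_nonpos_of_nonneg (by linarith) (hhh m)
    · exact integral_nonneg fun x => mul_nonneg (wt_nonneg φ x) (by positivity)
  set κ : ℝ := η / (8 * (p + 1)) with hκ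
  have hκ0 : 0 < κ := by positivity
  obtain ⟨δ, hδ, hwt⟩ := weight_cmp hφ hφ0 M κ hκ0
  have hη' : 0 < η / 2 := by positivity
  choose s0 hs0 hF using fun m : ℕ => hFNL W V hW hV m (η / 2) hη'
  set S : ℝ := ∑ m ∈ Finset.range (p + 1), s0 m with hS
  have hSm : ∀ m ≤ p, s0 m ≤ S := by
    intro m hm
    exact Finset.single_le_sum (f := s0) (fun i _ => (hs0 i).le)
      (Finset.mem_range.2 (by omega))
  have hS0 : 0 < S := lt_of_lt_of_le (hs0 0) (hSm 0 (Nat.zero_le p))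
  rw [eventually_atTop]
  refine ⟨⌈S ^ 3 / n0⌉₊ + ⌈S ^ 6 / n0 ^ 2⌉₊ + ⌈n0 / δ ^ 3⌉₊ + 1, ?_⟩
  intro N hN a ha m hm F hFc
  have hN1 : 1 ≤ N := by omega
  have hNR : (0 : ℝ) < N := by exact_mod_cast hN1
  have hNR1 : (1 : ℝ) ≤ N := by exact_mod_cast hN1
  have c1 : S ^ 3 / n0 ≤ N := by
    refine (Nat.le_ceil _).trans ?_
    exact_mod_cast (show ⌈S ^ 3 / n0⌉₊ ≤ N by omega)
  have c2 : S ^ 6 / n0 ^ 2 ≤ N := by
    refine (Nat.le_ceil _).trans ?_
    exact_mod_cast (show ⌈S ^ 6 / n0 ^ 2⌉₊ ≤ N by omega)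
  have c3 : n0 / δ ^ 3 ≤ N := by
    refine (Nat.le_ceil _).trans ?_
    exact_mod_cast (show ⌈n0 / δ ^ 3⌉₊ ≤ N by omega)
  rw [div_le_iff₀ (by positivity)] at c1 c2 c3
  set l := ell n0 N with hl
  have hl0 : 0 < l := ell_pos hn0 hN1
  have hl3 : l ^ 3 = n0 / N := ell_cube hn0 hN1
  have hlδ : l ≤ δ := by
    refine (pow_le_pow_iff_left₀ hl0.le hδ.le (n := 3) (by norm_num)).1 ?_
    rw [hl3, div_le_iff₀ hNR]
    linarith
  have hsS : S ≤ N * l := by
    refine (pow_le_pow_iff_left₀ hS0.le (by positivity) (n := 3) (by norm_num)).1 ?_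
    rw [mul_pow, hl3]
    have e : (N : ℝ) ^ 3 * (n0 / N) = N * (N * n0) := by field_simp
    rw [e]
    have h1 : 1 * (N * n0) ≤ N * (N * n0) := mul_le_mul_of_nonneg_right hNR1 (by positivity)
    linarith
  have hrS : S ≤ Real.sqrt N * l := by
    refine (pow_le_pow_iff_left₀ hS0.le (by positivity) (n := 6) (by norm_num)).1 ?_
    have e : (Real.sqrt N * l) ^ 6 = N * n0 ^ 2 := by
      have e1 : (Real.sqrt N * l) ^ 6 = (Real.sqrt N ^ 2) ^ 3 * (l ^ 3) ^ 2 := by ring
      rw [e1, Real.sq_sqrt hNR.le, hl3]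
      field_simp
    rw [e]
    exact c2
  have hsc := scaled W V hn0 m (hF m) hN1 ((hSm m hm).trans hsS) ((hSm m hm).trans hrS) a F hFc
  rw [← hl] at hsc
  -- weights
  set wa : ℝ := (φ a ^ 2) ^ m with hwa
  set Ex : ℝ := Real.exp (2 * κ) ^ m with hEx
  have hwa0 : 0 < wa := by
    have := hφ0 a
    positivity
  have hEx0 : 0 < Ex := by positivity
  have hw1 : ∀ x ∈ box a l m, wt φ x ≤ Ex * wa := by
    intro x hx
    have h1 : wt φ x ≤ ∏ _i : Fin m, (Real.exp (2 * κ) * φ a ^ 2) := by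
      unfold wt
      exact Finset.prod_le_prod (fun i _ => sq_nonneg _) fun i _ =>
        (hwt l hl0 hlδ a ha (x i) (norm_sub_le_of_box hl0 hx i)).1
    rw [Finset.prod_const, Finset.card_univ, Fintype.card_fin, mul_pow] at h1
    exact h1
  have hw2 : ∀ x ∈ box a l m, wa ≤ Ex * wt φ x := by
    intro x hx
    have h1 : ∏ _i : Fin m, φ a ^ 2 ≤ ∏ i : Fin m, (Real.exp (2 * κ) * φ (x i) ^ 2) :=
      Finset.prod_le_prod (fun i _ => sq_nonneg _) fun i _ =>
        (hwt l hl0 hlδ a ha (x i) (norm_sub_le_of_box hl0 hx i)).2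
    rw [Finset.prod_const, Finset.card_univ, Fintype.card_fin, Finset.prod_mul_distrib,
      Finset.prod_const, Finset.card_univ, Fintype.card_fin] at h1
    exact h1
  have hFsq : Continuous fun x : Cfg m => ‖F x‖ ^ 2 := hFc.continuous.norm.pow 2
  have hI1 : IntegrableOn (fun x : Cfg m => ‖F x‖ ^ 2) (box a l m) := intOn_cont hFsq a hl0
  have hi1 : ∫ x in box a l m, wt φ x * ‖F x‖ ^ 2 ≤
      Ex * wa * ∫ x in box a l m, ‖F x‖ ^ 2 := by
    rw [← integral_const_mul]
    refine setIntegral_mono_on (intOn_cont ((cont_wt hφ).mul hFsq) a hl0)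
      (hI1.const_mul _) (meas_box a l) ?_
    intro x hx
    exact mul_le_mul_of_nonneg_right (hw1 x hx) (by positivity)
  have hQint : IntegrableOn (fun x : Cfg m => kin F x + PP W V N x * ‖F x‖ ^ 2) (box a l m) :=
    (intOn_cont (cont_kin hFc) a hl0).add
      (intOn_mul hFsq (PP_meas hW hV N) (PP_bdd hW hV N) a hl0)
  have hwQint : IntegrableOn (fun x : Cfg m => wt φ x * (kin F x + PP W V N x * ‖F x‖ ^ 2))
      (box a l m) := by
    have h1 : IntegrableOn (fun x : Cfg m => wt φ x * kin F x + PP W V N x * (wt φ x * ‖F x‖ ^ 2))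
        (box a l m) :=
      (intOn_cont ((cont_wt hφ).mul (cont_kin hFc)) a hl0).add
        (intOn_mul ((cont_wt hφ).mul hFsq) (PP_meas hW hV N) (PP_bdd hW hV N) a hl0)
    refine h1.congr (Eventually.of_forall fun x => ?_)
    show wt φ x * kin F x + PP W V N x * (wt φ x * ‖F x‖ ^ 2) = _
    ring
  have hQ0 : ∀ x : Cfg m, 0 ≤ kin F x + PP W V N x * ‖F x‖ ^ 2 := by
    intro x
    have h1 := kin_nonneg F x
    have h2 := PP_nonneg hW hV N x
    positivity
  have hi2 : wa * (∫ x in box a l m, (kin F x + PP W V N x * ‖F x‖ ^ 2)) ≤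
      Ex * ∫ x in box a l m, wt φ x * (kin F x + PP W V N x * ‖F x‖ ^ 2) := by
    rw [← integral_const_mul, ← integral_const_mul]
    refine setIntegral_mono_on (hQint.const_mul _) (hwQint.const_mul _) (meas_box a l) ?_
    intro x hx
    have := mul_le_mul_of_nonneg_right (hw2 x hx) (hQ0 x)
    linarith
  -- numbers
  have hnum : (1 - η) * Ex ^ 2 ≤ 1 - η / 2 := by
    have hE2 : Ex ^ 2 ≤ Real.exp (η / 2) := by
      rw [hEx, ← pow_mul, ← Real.exp_nat_mul]
      refine Real.exp_le_exp.2 ?_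
      push_cast
      have hmp : (m : ℝ) ≤ p + 1 := by exact_mod_cast (show m ≤ p + 1 by omega)
      have h1 : κ * (8 * (p + 1)) = η := by
        rw [hκ]; field_simp
      have h2 : κ * m ≤ κ * (p + 1) := mul_le_mul_of_nonneg_left hmp hκ0.le
      linarith
    have h3 : 1 - η / 2 ≤ Real.exp (-(η / 2)) := by
      have := Real.add_one_le_exp (-(η / 2))
      linarith
    have h4 : Real.exp (-(η / 2)) * Real.exp (η / 2) = 1 := by
      rw [← Real.exp_add]; simp
    have hexp : 0 < Real.exp (η / 2) := Real.exp_pos _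
    have h5 : (1 - η / 2) * Real.exp (η / 2) ≤ 1 := by
      have := mul_le_mul_of_nonneg_right h3 hexp.le
      rwa [h4] at this
    have h6 : (1 - η) * Ex ^ 2 ≤ (1 - η) * Real.exp (η / 2) :=
      mul_le_mul_of_nonneg_left hE2 (by linarith)
    have h7 : (1 - η) * Real.exp (η / 2) ≤ (1 - η / 2) ^ 2 * Real.exp (η / 2) :=
      mul_le_mul_of_nonneg_right (by nlinarith [sq_nonneg η]) hexp.le
    have h8 : (1 - η / 2) ^ 2 * Real.exp (η / 2) = (1 - η / 2) * ((1 - η / 2) * Real.exp (η / 2)) := by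
      ring
    have h9 : (1 - η / 2) * ((1 - η / 2) * Real.exp (η / 2)) ≤ (1 - η / 2) * 1 :=
      mul_le_mul_of_nonneg_left h5 (by linarith)
    linarith
  have hI0 : 0 ≤ ∫ x in box a l m, ‖F x‖ ^ 2 := integral_nonneg fun x => by positivity
  set I := ∫ x in box a l m, ‖F x‖ ^ 2 with hI
  set h0 := hh (b1 W) (b2 V) n0 m with hh0
  have hh0' : 0 ≤ h0 := hhh m
  have fin : Ex * ((1 - η) * h0 * (∫ x in box a l m, wt φ x * ‖F x‖ ^ 2)) ≤
      Ex * ∫ x in box a l m, wt φ x * (kin F x + PP W V N x * ‖F x‖ ^ 2) := by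
    have a1 : (1 - η) * h0 * (∫ x in box a l m, wt φ x * ‖F x‖ ^ 2) ≤
        (1 - η) * h0 * (Ex * wa * I) :=
      mul_le_mul_of_nonneg_left hi1 (mul_nonneg (by linarith) hh0')
    have a2 : Ex * ((1 - η) * h0 * (∫ x in box a l m, wt φ x * ‖F x‖ ^ 2)) ≤
        Ex * ((1 - η) * h0 * (Ex * wa * I)) := mul_le_mul_of_nonneg_left a1 hEx0.le
    have a3 : Ex * ((1 - η) * h0 * (Ex * wa * I)) = ((1 - η) * Ex ^ 2) * (h0 * wa * I) := by ring
    have a4 : ((1 - η) * Ex ^ 2) * (h0 * wa * I) ≤ (1 - η / 2) * (h0 * wa * I) :=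
      mul_le_mul_of_nonneg_right hnum (mul_nonneg (mul_nonneg hh0' hwa0.le) hI0)
    have a5 : (1 - η / 2) * (h0 * wa * I) = wa * ((1 - η / 2) * h0 * I) := by ring
    have a6 : wa * ((1 - η / 2) * h0 * I) ≤
        wa * (∫ x in box a l m, (kin F x + PP W V N x * ‖F x‖ ^ 2)) :=
      mul_le_mul_of_nonneg_left hsc hwa0.le
    linarith
  exact le_of_mul_le_mul_left fin hEx0

end Pool.Agent.W395.TWB
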